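import Mathlib

/-! Project MW: completeness with respect to the intrinsic distance. -/

namespace Pool.Agent.Helper98.MW

open Filter Topology Set

theorem intrinsic_complete {E : Type*} [NormedAddCommGroup E] [NormedSpace ℝ E] [CompleteSpace E]
    {X : ℝ × ℝ → E} (hX : ContDiff ℝ (⊤ : ℕ∞) X)
    (hc : IsClosedEmbedding X) (u : ℕ → ℝ × ℝ)
    (hu : ∀ ε > 0, ∃ n₀, ∀ m n, n₀ ≤ m → n₀ ≤ n → ∃ γ : ℝ → ℝ × ℝ, ContDiff ℝ 1 γ ∧ γ 0 = u m ∧
      γ 1 = u n ∧ ∫ t in (0 : ℝ)..1, ‖deriv (X ∘ γ) t‖ < ε) :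
    ∃ p, Tendsto u atTop (𝓝 p) := by
  have hcau : CauchySeq (fun n => X (u n)) := by
    rw [Metric.cauchySeq_iff]
    intro ε hε
    obtain ⟨n₀, hn₀⟩ := hu ε hε
    refine ⟨n₀, fun m hm n hn => ?_⟩
    obtain ⟨γ, hγ, h0, h1, hint⟩ := hn₀ n m hn hm
    have hXγ : ContDiff ℝ 1 (X ∘ γ) := (hX.of_le (by exact_mod_cast le_top)).comp hγ
    have hder : Continuous (deriv (X ∘ γ)) := hXγ.continuous_deriv le_rfl
    have h2 : ∫ t in (0 : ℝ)..1, deriv (X ∘ γ) t = (X ∘ γ) 1 - (X ∘ γ) 0 :=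
      intervalIntegral.integral_deriv_eq_sub
        (fun t _ => (hXγ.differentiable one_ne_zero) t) (hder.intervalIntegrable 0 1)
    have h3 : ‖(X ∘ γ) 1 - (X ∘ γ) 0‖ ≤ ∫ t in (0 : ℝ)..1, ‖deriv (X ∘ γ) t‖ := by
      rw [← h2]
      exact intervalIntegral.norm_integral_le_integral_norm zero_le_one
    rw [dist_eq_norm]
    simp only [Function.comp_apply, h0, h1] at h3
    exact lt_of_le_of_lt h3 hint
  obtain ⟨y, hy⟩ := cauchySeq_tendsto_of_complete hcau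
  have hmem : y ∈ range X := hc.isClosed_range.mem_of_tendsto hy
    (Eventually.of_forall fun n => mem_range_self _)
  obtain ⟨p, rfl⟩ := hmem
  exact ⟨p, hc.isInducing.tendsto_nhds_iff.2 hy⟩

end Pool.Agent.Helper98.MW
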